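import Pool.Agent.X51.Rec.Cycle

/-!
# The girth of the reconfiguration graph of minimal dominating sets
-/

set_option autoImplicit false

namespace Pool.Agent.Results.MP_fb0e57_co.GirthAtMostFive

open Finset

universe u

variable {V : Type u} [Fintype V] [DecidableEq V]

/-- `S` is a dominating set of `G`. -/
def IsDominating (G : SimpleGraph V) (S : Finset V) : Prop := ∀ y, y ∈ S ∨ ∃ x ∈ S, G.Adj x y

/-- `S` is a minimal dominating set of `G`. -/
def IsMinDominating (G : SimpleGraph V) (S : Finset V) : Prop :=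
  IsDominating G S ∧ ∀ v ∈ S, ¬ IsDominating G (S.erase v)

/-- The reconfiguration graph `R(G)`: its vertices are the minimal dominating sets of `G`; `M₁` and
`M₂` are adjacent if there is a vertex `v` with `M₂ \ M₁ = {v}` and `M₁ \ M₂ ⊆ N(v)`, or with
`M₁ \ M₂ = {v}` and `M₂ \ M₁ ⊆ N(v)`. -/
def reconf (G : SimpleGraph V) : SimpleGraph {S : Finset V // IsMinDominating G S} where
  Adj M₁ M₂ := ∃ v, (M₂.1 \ M₁.1 = {v} ∧ ∀ x ∈ M₁.1 \ M₂.1, G.Adj v x) ∨
    (M₁.1 \ M₂.1 = {v} ∧ ∀ x ∈ M₂.1 \ M₁.1, G.Adj v x)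
  symm := ⟨by
    rintro M₁ M₂ ⟨v, h | h⟩
    · exact ⟨v, Or.inr h⟩
    · exact ⟨v, Or.inl h⟩⟩
  loopless := ⟨by
    rintro M ⟨v, h | h⟩
    · have := h.1
      rw [Finset.sdiff_self] at this
      exact absurd this.symm (Finset.singleton_ne_empty v)
    · have := h.1
      rw [Finset.sdiff_self] at this
      exact absurd this.symm (Finset.singleton_ne_empty v)⟩

lemma isMin_of {G : SimpleGraph V} {S : Finset V} (h : Pool.Agent.X51.Rec.MD G Finset.univ S) :
    IsMinDominating G S :=
  ⟨fun y => h.2.1 y (Finset.mem_univ y), fun v hv hd => h.2.2 v hv (fun y _ => hd y)⟩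

open Pool.Agent.X51.Rec in
lemma cycle_of {G : SimpleGraph V} (h : SC G Finset.univ) :
    ∃ M, ∃ w : (reconf G).Walk M M, w.IsCycle ∧ w.length ≤ 5 := by
  rcases h with ⟨A, B, C, hA, hB, hC, h1, h2, h3⟩ | ⟨A, B, C, D, hA, hB, hC, hD, h1, h2, h3, h4, n1,
    n2⟩ | ⟨A, B, C, D, E, hA, hB, hC, hD, hE, h1, h2, h3, h4, h5, n1, n2, n3, n4, n5⟩
  · exact cyc3 (H := reconf G) (a := ⟨A, isMin_of hA⟩) (b := ⟨B, isMin_of hB⟩)
      (c := ⟨C, isMin_of hC⟩) h1 h2 h3
  · exact cyc4 (H := reconf G) (a := ⟨A, isMin_of hA⟩) (b := ⟨B, isMin_of hB⟩)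
      (c := ⟨C, isMin_of hC⟩) (d := ⟨D, isMin_of hD⟩) h1 h2 h3 h4
      (fun h => n1 (Subtype.ext_iff.mp h)) (fun h => n2 (Subtype.ext_iff.mp h))
  · exact cyc5 (H := reconf G) (a := ⟨A, isMin_of hA⟩) (b := ⟨B, isMin_of hB⟩)
      (c := ⟨C, isMin_of hC⟩) (d := ⟨D, isMin_of hD⟩) (e := ⟨E, isMin_of hE⟩) h1 h2 h3 h4 h5
      (fun h => n1 (Subtype.ext_iff.mp h)) (fun h => n2 (Subtype.ext_iff.mp h))
      (fun h => n3 (Subtype.ext_iff.mp h)) (fun h => n4 (Subtype.ext_iff.mp h))
      (fun h => n5 (Subtype.ext_iff.mp h))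

/-- if all edges of `G` share a vertex then `R(G)` is acyclic -/
lemma acyclic_of_inF {G : SimpleGraph V} {c : V} (hc : ∀ x y, G.Adj x y → x = c ∨ y = c) :
    (reconf G).IsAcyclic := by
  classical
  have key : ∀ S : Finset V, IsMinDominating G S →
      (∀ y, y ∈ S ↔ ¬ G.Adj c y) ∨ (∀ y, y ∈ S ↔ y ≠ c) := by
    intro S hS
    by_cases hcS : c ∈ S
    · left
      intro y
      constructor
      · intro hy hadj
        refine hS.2 y hy fun z => ?_
        rcases hS.1 z with hz | ⟨x, hx, hxz⟩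
        · by_cases hzy : z = y
          · right
            rw [hzy]
            exact ⟨c, Finset.mem_erase.mpr ⟨hadj.ne, hcS⟩, hadj⟩
          · exact Or.inl (Finset.mem_erase.mpr ⟨hzy, hz⟩)
        · by_cases hxy : x = y
          · left
            rcases hc x z hxz with h1 | h1
            · exfalso
              rw [hxy] at h1
              exact hadj.ne h1.symm
            · rw [h1]
              exact Finset.mem_erase.mpr ⟨hadj.ne, hcS⟩
          · exact Or.inr ⟨x, Finset.mem_erase.mpr ⟨hxy, hx⟩, hxz⟩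
      · intro hy
        rcases hS.1 y with h1 | ⟨x, hx, hxy⟩
        · exact h1
        · rcases hc x y hxy with h1 | h1
          · rw [h1] at hxy
            exact absurd hxy hy
          · rw [h1]
            exact hcS
    · right
      intro y
      constructor
      · rintro hy rfl
        exact hcS hy
      · intro hy
        rcases hS.1 y with h1 | ⟨x, hx, hxy⟩
        · exact h1
        · rcases hc x y hxy with h1 | h1
          · rw [h1] at hx
            exact absurd hx hcS
          · exact absurd h1 hy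
  refine Pool.Agent.X51.Rec.acyclic_of_two fun A B C => ?_
  have h2 : ∀ A B : {S : Finset V // IsMinDominating G S}, (∀ y, y ∈ A.1 ↔ y ∈ B.1) → A = B :=
    fun A B h => Subtype.ext (Finset.ext h)
  rcases key A.1 A.2 with hA | hA <;> rcases key B.1 B.2 with hB | hB <;>
    rcases key C.1 C.2 with hC | hC
  all_goals first
    | exact Or.inl (h2 _ _ fun y => (hA y).trans (hB y).symm)
    | exact Or.inr (Or.inl (h2 _ _ fun y => (hA y).trans (hC y).symm))
    | exact Or.inr (Or.inr (h2 _ _ fun y => (hB y).trans (hC y).symm))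

/-- For every finite graph `G`: if the reconfiguration graph `R(G)` contains a cycle then it
contains a cycle of length at most `5`. -/
theorem result : ∀ (V : Type u) [Fintype V] [DecidableEq V] (G : SimpleGraph V),
    (∃ M, ∃ w : (reconf G).Walk M M, w.IsCycle) →
    ∃ M, ∃ w : (reconf G).Walk M M, w.IsCycle ∧ w.length ≤ 5 := by
  intro V _ _ G ⟨M, w, hw⟩
  by_cases hV : Nonempty V
  · by_cases hF : Pool.Agent.X51.Rec.InF G Finset.univ
    · exfalso
      obtain ⟨c, hc⟩ := hF
      exact acyclic_of_inF (fun x y h => hc x (Finset.mem_univ _) y (Finset.mem_univ _) h) w hw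
    · exact cycle_of (Pool.Agent.X51.Rec.short_cycle _ _ rfl hF)
  · exfalso
    rw [not_nonempty_iff] at hV
    refine Pool.Agent.X51.Rec.acyclic_of_two (fun A B C => Or.inl ?_) w hw
    apply Subtype.ext
    ext x
    exact hV.elim x

end Pool.Agent.Results.MP_fb0e57_co.GirthAtMostFive
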